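import Pool.Agent.PFD.StmtsD4

/-! PFD, row ZON: the centre of `A1` maps onto the centre of `A`. -/

set_option autoImplicit false

namespace Pool.Agent.PFD.D4.H80

open Pool.Agent.PFD.D4 Pool.Agent.PFD.D2 Pool.Agent.PFD.D2b

theorem zon (hRTC : RtcStmt) : ZonStmt := by
  intro R F Γ Γ0 A A1 W I _ _ c _ _ _ _ _ _ _ _ _ _ _ D f j0 pr0 lr z hz
  letI := lr.fN
  obtain ⟨b, hb1, hb2⟩ := lr.cl z (fun γ => (hz _).symm)
  obtain ⟨h1, -, -⟩ := hRTC R Γ A1 lr.N lr.j lr.pr lr.rf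
  have hcb := h1 b hb1
  have hc1 := h1 1 (fun γ => by rw [mul_one, one_mul])
  obtain ⟨i, hi⟩ := lr.un1
  have hi1 : lr.rf.rt 1 * (↑i⁻¹ : A1) = 1 := by rw [← hi, Units.mul_inv]
  have hi2 : (↑i⁻¹ : A1) * lr.rf.rt 1 = 1 := by rw [← hi, Units.inv_mul]
  have hic : ∀ a : A1, a * (↑i⁻¹ : A1) = (↑i⁻¹ : A1) * a := by
    intro a
    calc a * (↑i⁻¹ : A1) = (↑i⁻¹ : A1) * lr.rf.rt 1 * a * (↑i⁻¹ : A1) := by rw [hi2, one_mul]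
      _ = (↑i⁻¹ : A1) * (lr.rf.rt 1 * a) * (↑i⁻¹ : A1) := by rw [mul_assoc (↑i⁻¹ : A1)]
      _ = (↑i⁻¹ : A1) * (a * lr.rf.rt 1) * (↑i⁻¹ : A1) := by rw [hc1]
      _ = (↑i⁻¹ : A1) * a * (lr.rf.rt 1 * (↑i⁻¹ : A1)) := by simp only [mul_assoc]
      _ = (↑i⁻¹ : A1) * a := by rw [hi1, mul_one]
  have hq : lr.fb.q (lr.rf.rt b) = z * lr.fb.q (lr.rf.rt 1) := by
    unfold RF.rt
    rw [map_sum, map_sum, Finset.mul_sum]
    refine Finset.sum_congr rfl fun k _ => ?_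
    rw [map_mul, map_mul, map_mul, map_mul, hb2, map_one, mul_one, ← hz, mul_assoc]
  refine ⟨lr.rf.rt b * (↑i⁻¹ : A1), ?_, ?_⟩
  · intro a
    rw [mul_assoc, ← hic a, ← mul_assoc, ← hcb a, mul_assoc]
  · rw [map_mul, hq, mul_assoc, ← map_mul, hi1, map_one, mul_one]

end Pool.Agent.PFD.D4.H80
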